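import Mathlib

/-!
# Inverse semigroups: the natural order, and meets if all subgroups are trivial
-/

set_option autoImplicit false

namespace Pool.Agent.Q174.IS

/-- inverse semigroups, with the inverse as an operation -/
class InvSemi (M : Type*) extends Semigroup M, Inv M where
  mul_inv_mul : ∀ x : M, x * x⁻¹ * x = x
  inv_mul_inv : ∀ x : M, x⁻¹ * x * x⁻¹ = x⁻¹
  uniq : ∀ x y : M, x * y * x = x → y * x * y = y → y = x⁻¹

/-- each element has exactly one generalized inverse -/
def IsInverse (M : Type*) [Semigroup M] : Prop := ∀ x : M, ∃! y, x * y * x = x ∧ y * x * y = y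

/-- all subgroups are trivial: an element which commutes with its inverse is idempotent -/
def TrivialSubgroups (M : Type*) [Semigroup M] : Prop :=
  ∀ x y : M, x * y * x = x → y * x * y = y → x * y = y * x → x * x = x

/-- the operation of the inverse -/
@[reducible] noncomputable def mkInv {M : Type*} [S : Semigroup M] (h : IsInverse M) : InvSemi M where
  toSemigroup := S
  inv x := (h x).choose
  mul_inv_mul x := (h x).choose_spec.1.1
  inv_mul_inv x := (h x).choose_spec.1.2
  uniq x y h1 h2 := (h x).choose_spec.2 y ⟨h1, h2⟩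

variable {M : Type*} [InvSemi M]

open InvSemi

/-- `e` is idempotent -/
def Idm (e : M) : Prop := e * e = e

@[simp] lemma inv_inv' (x : M) : (x⁻¹)⁻¹ = x :=
  (uniq x⁻¹ x (inv_mul_inv x) (mul_inv_mul x)).symm

lemma mim (x : M) : x * (x⁻¹ * x) = x := by rw [← mul_assoc]; exact mul_inv_mul x

lemma imi (x : M) : x⁻¹ * (x * x⁻¹) = x⁻¹ := by rw [← mul_assoc]; exact inv_mul_inv x

lemma Idm.inv {e : M} (h : Idm e) : e⁻¹ = e := by
  have h' : e * e = e := h
  exact (uniq e e (by rw [h', h']) (by rw [h', h'])).symm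

lemma idm_inv_mul (x : M) : Idm (x⁻¹ * x) := by
  unfold Idm
  rw [mul_assoc, mim]

lemma idm_mul_inv (x : M) : Idm (x * x⁻¹) := by
  unfold Idm
  rw [mul_assoc, imi]

lemma idm_mul {e f : M} (he : Idm e) (hf : Idm f) : Idm (e * f) := by
  have he' : e * e = e := he
  have hf' : f * f = f := hf
  set x := (e * f)⁻¹ with hx
  have h1 : e * f * x * (e * f) = e * f := mul_inv_mul _
  have h2 : x * (e * f) * x = x := inv_mul_inv _
  have h3 : f * x * e = x := by
    refine uniq (e * f) (f * x * e) ?_ ?_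
    · calc e * f * (f * x * e) * (e * f) = e * (f * f) * x * ((e * e) * f) := by
            simp only [mul_assoc]
        _ = e * f * x * (e * f) := by rw [he', hf']
        _ = e * f := h1
    · calc f * x * e * (e * f) * (f * x * e) = f * (x * ((e * e) * (f * f)) * x) * e := by
            simp only [mul_assoc]
        _ = f * (x * (e * f) * x) * e := by rw [he', hf']
        _ = f * x * e := by rw [h2]
  have h4 : Idm x := by
    unfold Idm
    calc x * x = (f * x * e) * (f * x * e) := by rw [h3]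
      _ = f * (x * (e * f) * x) * e := by simp only [mul_assoc]
      _ = f * x * e := by rw [h2]
      _ = x := h3
  have h5 : e * f = x := by
    have : (e * f) = x⁻¹ := by rw [hx, inv_inv']
    rw [this, h4.inv]
  rw [h5]
  exact h4

lemma idm_comm {e f : M} (he : Idm e) (hf : Idm f) : e * f = f * e := by
  have he' : e * e = e := he
  have hf' : f * f = f := hf
  have h1 : e * f * (e * f) = e * f := idm_mul he hf
  have h2 : f * e * (f * e) = f * e := idm_mul hf he
  have h3 : f * e = (e * f)⁻¹ := by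
    refine uniq (e * f) (f * e) ?_ ?_
    · calc e * f * (f * e) * (e * f) = e * (f * f) * ((e * e) * f) := by simp only [mul_assoc]
        _ = e * f * (e * f) := by rw [he', hf']
        _ = e * f := h1
    · calc f * e * (e * f) * (f * e) = f * (e * e) * ((f * f) * e) := by simp only [mul_assoc]
        _ = f * e * (f * e) := by rw [he', hf']
        _ = f * e := h2
  rw [h3, (show Idm (e * f) from h1).inv]

lemma mul_inv_rev' (x y : M) : (x * y)⁻¹ = y⁻¹ * x⁻¹ := by
  have hc := idm_comm (idm_mul_inv y) (idm_inv_mul x)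
  refine (uniq (x * y) (y⁻¹ * x⁻¹) ?_ ?_).symm
  · calc x * y * (y⁻¹ * x⁻¹) * (x * y) = x * ((y * y⁻¹) * (x⁻¹ * x)) * y := by
          simp only [mul_assoc]
      _ = x * ((x⁻¹ * x) * (y * y⁻¹)) * y := by rw [hc]
      _ = (x * (x⁻¹ * x)) * (y * (y⁻¹ * y)) := by simp only [mul_assoc]
      _ = x * y := by rw [mim, mim]
  · calc y⁻¹ * x⁻¹ * (x * y) * (y⁻¹ * x⁻¹) = y⁻¹ * ((x⁻¹ * x) * (y * y⁻¹)) * x⁻¹ := by
          simp only [mul_assoc]
      _ = y⁻¹ * ((y * y⁻¹) * (x⁻¹ * x)) * x⁻¹ := by rw [hc]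
      _ = (y⁻¹ * (y * y⁻¹)) * (x⁻¹ * (x * x⁻¹)) := by simp only [mul_assoc]
      _ = y⁻¹ * x⁻¹ := by rw [imi, imi]

/-- the natural order -/
def le (s t : M) : Prop := s = t * (s⁻¹ * s)

lemma le_mul_idm (t : M) {e : M} (he : Idm e) : le (t * e) t := by
  unfold le
  have hc := idm_comm (idm_inv_mul t) he
  have he' : e * e = e := he
  calc t * e = t * (t⁻¹ * t) * (e * e) := by rw [mim, he']
    _ = t * ((t⁻¹ * t) * e) * e := by simp only [mul_assoc]
    _ = t * (e * (t⁻¹ * t)) * e := by rw [hc]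
    _ = t * (e * t⁻¹ * (t * e)) := by simp only [mul_assoc]
    _ = t * ((t * e)⁻¹ * (t * e)) := by rw [mul_inv_rev', he.inv]

lemma idm_conj {e : M} (he : Idm e) (t : M) : Idm (t⁻¹ * e * t) := by
  unfold Idm
  have hc := idm_comm he (idm_mul_inv t)
  have he' : e * e = e := he
  calc t⁻¹ * e * t * (t⁻¹ * e * t) = t⁻¹ * (e * (t * t⁻¹)) * (e * t) := by simp only [mul_assoc]
    _ = t⁻¹ * ((t * t⁻¹) * e) * (e * t) := by rw [hc]
    _ = (t⁻¹ * (t * t⁻¹)) * (e * e) * t := by simp only [mul_assoc]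
    _ = t⁻¹ * e * t := by rw [imi, he']

lemma idm_conj' {e : M} (he : Idm e) (t : M) : Idm (t * e * t⁻¹) := by
  have := idm_conj he t⁻¹
  rwa [inv_inv'] at this

lemma idm_mul_eq {e : M} (he : Idm e) (t : M) : e * t = t * (t⁻¹ * e * t) := by
  have hc := idm_comm he (idm_mul_inv t)
  calc e * t = e * (t * (t⁻¹ * t)) := by rw [mim]
    _ = (e * (t * t⁻¹)) * t := by simp only [mul_assoc]
    _ = ((t * t⁻¹) * e) * t := by rw [hc]
    _ = t * (t⁻¹ * e * t) := by simp only [mul_assoc]

lemma le_idm_mul {e : M} (he : Idm e) (t : M) : le (e * t) t := by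
  rw [idm_mul_eq he t]
  exact le_mul_idm t (idm_conj he t)

lemma le_left {s t : M} (h : le s t) : s = s * s⁻¹ * t := by
  have h' : s = t * (s⁻¹ * s) := h
  have h1 : s * s⁻¹ = t * (s⁻¹ * s) * t⁻¹ := by
    calc s * s⁻¹ = s * (t * (s⁻¹ * s))⁻¹ := by rw [← h']
      _ = s * ((s⁻¹ * s) * t⁻¹) := by rw [mul_inv_rev', (idm_inv_mul s).inv]
      _ = (s * (s⁻¹ * s)) * t⁻¹ := by simp only [mul_assoc]
      _ = s * t⁻¹ := by rw [mim]
      _ = t * (s⁻¹ * s) * t⁻¹ := by rw [← h']
  have hc := idm_comm (idm_inv_mul s) (idm_inv_mul t)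
  rw [h1]
  calc s = t * (s⁻¹ * s) := h'
    _ = t * (t⁻¹ * t) * (s⁻¹ * s) := by rw [mim]
    _ = t * ((t⁻¹ * t) * (s⁻¹ * s)) := by simp only [mul_assoc]
    _ = t * ((s⁻¹ * s) * (t⁻¹ * t)) := by rw [hc]
    _ = t * (s⁻¹ * s) * t⁻¹ * t := by simp only [mul_assoc]

lemma le_refl' (s : M) : le s s := (mim s).symm

lemma le_trans' {s t u : M} (h : le s t) (h' : le t u) : le s u := by
  have h1 : s = t * (s⁻¹ * s) := h
  have h2 : t = u * (t⁻¹ * t) := h'
  have h3 : s = u * ((t⁻¹ * t) * (s⁻¹ * s)) := by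
    calc s = t * (s⁻¹ * s) := h1
      _ = u * (t⁻¹ * t) * (s⁻¹ * s) := by rw [← h2]
      _ = _ := by simp only [mul_assoc]
  rw [h3]
  exact le_mul_idm u (idm_mul (idm_inv_mul t) (idm_inv_mul s))

lemma le_antisymm' {s t : M} (h : le s t) (h' : le t s) : s = t := by
  have h1 : s = t * (s⁻¹ * s) := h
  have h2 : t = s * (t⁻¹ * t) := h'
  have hc := idm_comm (idm_inv_mul s) (idm_inv_mul t)
  calc s = t * (s⁻¹ * s) := h1
    _ = s * (t⁻¹ * t) * (s⁻¹ * s) := by rw [← h2]
    _ = s * ((t⁻¹ * t) * (s⁻¹ * s)) := by simp only [mul_assoc]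
    _ = s * ((s⁻¹ * s) * (t⁻¹ * t)) := by rw [hc]
    _ = (s * (s⁻¹ * s)) * (t⁻¹ * t) := by simp only [mul_assoc]
    _ = s * (t⁻¹ * t) := by rw [mim]
    _ = t := h2.symm

lemma le_mul {s t s' t' : M} (h : le s t) (h' : le s' t') : le (s * s') (t * t') := by
  have h1 : s = t * (s⁻¹ * s) := h
  have h2 : s' = t' * (s'⁻¹ * s') := h'
  have h3 : s * s' = t * t' * ((t'⁻¹ * (s⁻¹ * s) * t') * (s'⁻¹ * s')) := by
    calc s * s' = t * (s⁻¹ * s) * (t' * (s'⁻¹ * s')) := by rw [← h1, ← h2]
      _ = t * ((s⁻¹ * s) * t') * (s'⁻¹ * s') := by simp only [mul_assoc]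
      _ = t * (t' * (t'⁻¹ * (s⁻¹ * s) * t')) * (s'⁻¹ * s') := by
          rw [← idm_mul_eq (idm_inv_mul s) t']
      _ = _ := by simp only [mul_assoc]
  rw [h3]
  exact le_mul_idm _ (idm_mul (idm_conj (idm_inv_mul s) t') (idm_inv_mul s'))

lemma le_inv {s t : M} (h : le s t) : le s⁻¹ t⁻¹ := by
  have h1 : s = t * (s⁻¹ * s) := h
  have h2 : s⁻¹ = (s⁻¹ * s) * t⁻¹ := by
    calc s⁻¹ = (t * (s⁻¹ * s))⁻¹ := by rw [← h1]
      _ = _ := by rw [mul_inv_rev', (idm_inv_mul s).inv]
  rw [h2]
  exact le_idm_mul (idm_inv_mul s) _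

lemma le_idm {e f : M} (hf : Idm f) (h : le e f) : Idm e := by
  have h1 : e = f * (e⁻¹ * e) := h
  rw [h1]
  exact idm_mul hf (idm_inv_mul e)

lemma idm_le_iff {e f : M} (he : Idm e) : le e f ↔ e = f * e := by
  unfold le
  have he' : e * e = e := he
  rw [he.inv, he']

/-- the natural order, as a partial order -/
@[reducible] def natOrder (M : Type*) [InvSemi M] : PartialOrder M where
  le := le
  le_refl := le_refl'
  le_trans _ _ _ := le_trans'
  le_antisymm _ _ := le_antisymm'

/-- powers `u, u^2, …` -/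
def pw (u : M) : ℕ → M
  | 0 => u
  | n + 1 => pw u n * u

lemma pw_add (u : M) (m n : ℕ) : pw u m * pw u n = pw u (m + n + 1) := by
  induction n with
  | zero => rfl
  | succ n ih =>
    show pw u m * (pw u n * u) = _
    rw [← mul_assoc, ih]
    rfl

lemma pw_idm {e : M} (he : Idm e) (n : ℕ) : pw e n = e := by
  induction n with
  | zero => rfl
  | succ n ih =>
    show pw e n * e = e
    rw [ih]
    exact he

lemma pw_mono {s t : M} (h : le s t) (n : ℕ) : le (pw s n) (pw t n) := by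
  induction n with
  | zero => exact h
  | succ n ih => exact le_mul ih h

/-- some power is idempotent -/
lemma exists_idm_pw [Finite M] (u : M) : ∃ n, Idm (pw u n) := by
  obtain ⟨i, j, hij, h⟩ := Finite.exists_ne_map_eq_of_infinite (pw u)
  wlog hlt : i < j generalizing i j
  · exact this j i (Ne.symm hij) h.symm (by omega)
  -- `pw u i = pw u j`, the period is `p = j - i`
  set p := j - i with hp
  have hp0 : 0 < p := by omega
  have hper : ∀ m, pw u (i + m) = pw u (i + m + p) := by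
    intro m
    induction m with
    | zero => rw [add_zero, h]; congr 1; omega
    | succ m ih =>
      have e1 : pw u (i + (m + 1)) = pw u (i + m) * u := rfl
      have e2 : pw u (i + (m + 1) + p) = pw u (i + m + p) * u := by
        have : i + (m + 1) + p = (i + m + p) + 1 := by omega
        rw [this]
        rfl
      rw [e1, e2, ih]
  have hmul : ∀ k m, pw u (i + m) = pw u (i + m + k * p) := by
    intro k
    induction k with
    | zero => intro m; simp
    | succ k ih =>
      intro m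
      rw [ih m, show i + m + k * p = i + (m + k * p) by ring, hper]
      congr 1
      ring
  -- exponent `N + 1 = (i + 1) p`
  refine ⟨(i + 1) * p - 1, ?_⟩
  unfold Idm
  rw [pw_add]
  have h1 : i ≤ (i + 1) * p - 1 := by
    have : (i + 1) * 1 ≤ (i + 1) * p := Nat.mul_le_mul_left _ hp0
    omega
  obtain ⟨m, hm⟩ := Nat.exists_eq_add_of_le h1
  have h2 := hmul (i + 1) m
  rw [← hm] at h2
  rw [h2]
  congr 1
  have : 0 < (i + 1) * p := by positivity
  omega

lemma pw_comm (u : M) (n : ℕ) : u * pw u n = pw u n * u := by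
  have h1 := pw_add u 0 n
  have h2 := pw_add u n 0
  have e : pw u 0 = u := rfl
  rw [e] at h1 h2
  rw [h1, h2]
  congr 1
  omega

/-- in a semigroup with trivial subgroups -/
lemma pw_fix (hT : TrivialSubgroups M) {u : M} {n : ℕ} (hn : Idm (pw u n)) :
    u * pw u n = pw u n := by
  set v := pw u n with hv
  have hv' : v * v = v := hn
  have hc : u * v = v * u := pw_comm u n
  -- `g = u v`, inverse `g' = u^{2 n + 1} v`
  set g' := pw u (2 * n) * v with hg'
  have e1 : pw u (2 * n) * u = v * v := by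
    rw [hv, pw_add]
    show pw u (2 * n + 1) = _
    congr 1
    omega
  have e2 : u * pw u (2 * n) = v * v := by rw [pw_comm, e1]
  have hcv : ∀ m, pw u m * v = v * pw u m := by
    intro m
    rw [hv, pw_add, pw_add]
    congr 1
    omega
  have h1 : (u * v) * g' = v := by
    calc (u * v) * (pw u (2 * n) * v) = u * (v * pw u (2 * n)) * v := by simp only [mul_assoc]
      _ = u * (pw u (2 * n) * v) * v := by rw [hcv]
      _ = (u * pw u (2 * n)) * (v * v) := by simp only [mul_assoc]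
      _ = v := by rw [e2, hv', hv']
  have h2 : g' * (u * v) = v := by
    calc (pw u (2 * n) * v) * (u * v) = pw u (2 * n) * (v * u) * v := by simp only [mul_assoc]
      _ = pw u (2 * n) * (u * v) * v := by rw [hc]
      _ = (pw u (2 * n) * u) * (v * v) := by simp only [mul_assoc]
      _ = v := by rw [e1, hv', hv']
  have h3 : v * (u * v) = u * v := by
    rw [← mul_assoc, ← hc, mul_assoc, hv']
  have h4 : v * g' = g' := by
    rw [hg', ← mul_assoc, ← hcv, mul_assoc, hv']
  have h5 := hT (u * v) g' (by rw [h1, h3]) (by rw [h2, h4]) (by rw [h1, h2])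
  -- `g g = g`, hence `g = g g g' g ... = v`
  have h6 : u * v = v := by
    calc u * v = (u * v) * v := by rw [mul_assoc, hv']
      _ = (u * v) * ((u * v) * g') := by rw [h1]
      _ = ((u * v) * (u * v)) * g' := by simp only [mul_assoc]
      _ = (u * v) * g' := by rw [h5]
      _ = v := h1
  exact h6

/-- **Meets.** -/
theorem exists_meet [Finite M] (hT : TrivialSubgroups M) (x a : M) :
    ∃ w : M, ∀ s, le s w ↔ le s x ∧ le s a := by
  obtain ⟨n, hn⟩ := exists_idm_pw (x⁻¹ * a)
  set u := x⁻¹ * a with hu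
  set h := pw u n with hh
  have hfix : u * h = h := pw_fix hT hn
  refine ⟨x * h, fun s => ⟨fun hs => ⟨le_trans' hs (le_mul_idm x hn), ?_⟩, ?_⟩⟩
  · refine le_trans' hs ?_
    have h1 : x * h = (x * x⁻¹) * a * h := by
      calc x * h = x * (u * h) := by rw [hfix]
        _ = _ := by rw [hu]; simp only [mul_assoc]
    rw [h1]
    exact le_trans' (le_mul_idm _ hn) (le_idm_mul (idm_mul_inv x) a)
  · rintro ⟨hx, ha⟩
    have h1 : le (s⁻¹ * s) u := le_mul (le_inv hx) ha
    have h2 : le (s⁻¹ * s) h := by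
      have := pw_mono h1 n
      rwa [pw_idm (idm_inv_mul s)] at this
    have h3 : s = x * (s⁻¹ * s) := hx
    rw [h3]
    exact le_mul (le_refl' x) h2

/-- `H`-triviality -/
theorem eq_of_dom_ran (hT : TrivialSubgroups M) {x y : M} (h1 : x⁻¹ * x = y⁻¹ * y)
    (h2 : x * x⁻¹ = y * y⁻¹) : x = y := by
  set g := x⁻¹ * y with hg
  have e1 : g⁻¹ * g = y⁻¹ * y := by
    rw [hg, mul_inv_rev', inv_inv']
    calc y⁻¹ * x * (x⁻¹ * y) = y⁻¹ * (x * x⁻¹) * y := by simp only [mul_assoc]
      _ = (y⁻¹ * (y * y⁻¹)) * y := by rw [h2]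
      _ = y⁻¹ * y := by rw [imi]
  have e2 : g * g⁻¹ = x⁻¹ * x := by
    rw [hg, mul_inv_rev', inv_inv']
    calc x⁻¹ * y * (y⁻¹ * x) = x⁻¹ * (y * y⁻¹) * x := by simp only [mul_assoc]
      _ = (x⁻¹ * (x * x⁻¹)) * x := by rw [← h2]
      _ = x⁻¹ * x := by rw [imi]
  have h3 : Idm g := hT g g⁻¹ (mul_inv_mul g) (inv_mul_inv g) (by rw [e1, e2, h1])
  have h4 : g = y⁻¹ * y := by
    rw [← e1, h3.inv]
    exact h3.symm
  symm
  calc y = y * y⁻¹ * y := (mul_inv_mul y).symm
    _ = x * x⁻¹ * y := by rw [h2]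
    _ = x * g := by rw [hg, mul_assoc]
    _ = x * (x⁻¹ * x) := by rw [h4, h1]
    _ = x := mim x

end Pool.Agent.Q174.IS
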