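import Pool.Agent.Q174.IS.Inv
import Pool.Agent.Q174.AF.Cor

/-!
# Functions `f (x y)` on an inverse semigroup: features and rank
-/

set_option autoImplicit false

namespace Pool.Agent.Q174.IS

open Finset Pool.Agent.Q174.TD Pool.Agent.Q174.AF InvSemi

section general

variable {M : Type*} [InvSemi M] [Fintype M]

open Classical in
lemma exists_moeb (f : M → ℝ) : ∃ c : M → ℝ, ∀ z, f z = ∑ s : M, if le s z then c s else 0 := by
  let _ := natOrder M
  let _ : DecidableLE M := fun a b => Classical.propDecidable _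
  exact ⟨moeb f, fun z => zeta_moeb f z⟩

open Classical in
lemma zeta_inj (g : M → ℝ) (h : ∀ z, (∑ s : M, if le s z then g s else 0) = 0) : g = 0 := by
  let _ := natOrder M
  let _ : DecidableLE M := fun a b => Classical.propDecidable _
  have h1 : zetaMap (P := M) g = 0 := funext h
  exact zetaMap_injective (h1.trans (map_zero zetaMap).symm)

omit [Fintype M] in
lemma idm_le_mul {e f : M} (he : Idm e) (hf : Idm f) (h : le e f) : e * f = e := by
  rw [idm_comm he hf]
  exact ((idm_le_iff he).mp h).symm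

omit [Fintype M] in
lemma mul_of_dom_le {t y : M} (h : le (t⁻¹ * t) (y * y⁻¹)) : t * y * y⁻¹ = t := by
  have h1 := idm_le_mul (idm_inv_mul t) (idm_mul_inv y) h
  calc t * y * y⁻¹ = t * (t⁻¹ * t) * (y * y⁻¹) := by rw [mim, mul_assoc]
    _ = t * ((t⁻¹ * t) * (y * y⁻¹)) := by simp only [mul_assoc]
    _ = t := by rw [h1, mim]

omit [Fintype M] in
lemma mul_of_le_mul {s x y : M} (h : le s (x * y)) : s * y⁻¹ * y = s := by
  have h1 : le (s⁻¹ * s) (y⁻¹ * y) := by
    refine le_trans' (le_mul (le_inv h) h) ?_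
    rw [mul_inv_rev']
    have e : y⁻¹ * x⁻¹ * (x * y) = y⁻¹ * ((x⁻¹ * x) * y) := by simp only [mul_assoc]
    rw [e]
    exact le_mul (le_refl' _) (le_idm_mul (idm_inv_mul x) y)
  have h2 := idm_le_mul (idm_inv_mul s) (idm_inv_mul y) h1
  calc s * y⁻¹ * y = s * (s⁻¹ * s) * (y⁻¹ * y) := by rw [mim, mul_assoc]
    _ = s * ((s⁻¹ * s) * (y⁻¹ * y)) := by simp only [mul_assoc]
    _ = s := by rw [h2, mim]

omit [Fintype M] in
lemma below_of_le_mul {s x y : M} (h : le s (x * y)) :
    le (s * y⁻¹) x ∧ le ((s * y⁻¹)⁻¹ * (s * y⁻¹)) (y * y⁻¹) := by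
  constructor
  · refine le_trans' (le_mul h (le_refl' y⁻¹)) ?_
    rw [mul_assoc]
    exact le_mul_idm x (idm_mul_inv y)
  · rw [mul_inv_rev', inv_inv']
    have e : y * s⁻¹ * (s * y⁻¹) = y * (s⁻¹ * s) * y⁻¹ := by simp only [mul_assoc]
    rw [e]
    exact le_mul (le_mul_idm y (idm_inv_mul s)) (le_refl' _)

omit [Fintype M] in
lemma le_mul_of_below {t x y : M} (h1 : le t x) : le (t * y) (x * y) :=
  le_mul h1 (le_refl' y)

open Classical in
/-- the sum over the elements below a product -/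
lemma sum_le_mul (c : M → ℝ) (x y : M) : (∑ s : M, if le s (x * y) then c s else 0) =
    ∑ t : M, if le t x then (if le (t⁻¹ * t) (y * y⁻¹) then c (t * y) else 0) else 0 := by
  have e : ∀ t : M, (if le t x then (if le (t⁻¹ * t) (y * y⁻¹) then c (t * y) else 0) else 0) =
      if le t x ∧ le (t⁻¹ * t) (y * y⁻¹) then c (t * y) else 0 := by
    intro t
    rw [ite_and]
  rw [Finset.sum_congr rfl fun t _ => e t, ← Finset.sum_filter, ← Finset.sum_filter]
  refine Finset.sum_nbij' (fun s => s * y⁻¹) (fun t => t * y) ?_ ?_ ?_ ?_ ?_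
  · intro s hs
    exact mem_filter.mpr ⟨mem_univ _, below_of_le_mul (mem_filter.mp hs).2⟩
  · intro t ht
    exact mem_filter.mpr ⟨mem_univ _, le_mul_of_below (mem_filter.mp ht).2.1⟩
  · intro s hs
    exact mul_of_le_mul (mem_filter.mp hs).2
  · intro t ht
    exact mul_of_dom_le (mem_filter.mp ht).2.2
  · intro s hs
    simp only [mul_of_le_mul (mem_filter.mp hs).2]

open Classical in
/-- the idempotents which are `D`-equivalent to the domain of an element of the support -/
noncomputable def ES (c : M → ℝ) : Finset M :=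
  univ.filter fun e => ∃ s a : M, c s ≠ 0 ∧ a⁻¹ * a = e ∧ a * a⁻¹ = s⁻¹ * s

lemma mem_ES {c : M → ℝ} {e : M} :
    e ∈ ES c ↔ ∃ s a : M, c s ≠ 0 ∧ a⁻¹ * a = e ∧ a * a⁻¹ = s⁻¹ * s := by
  simp [ES]

lemma ran_mem_ES {c : M → ℝ} {t : M} (h : t⁻¹ * t ∈ ES c) : t * t⁻¹ ∈ ES c := by
  obtain ⟨s, a, hs, h1, h2⟩ := mem_ES.mp h
  refine mem_ES.mpr ⟨s, a * t⁻¹, hs, ?_, ?_⟩
  · rw [mul_inv_rev', inv_inv']
    calc t * a⁻¹ * (a * t⁻¹) = t * (a⁻¹ * a) * t⁻¹ := by simp only [mul_assoc]
      _ = t * (t⁻¹ * t) * t⁻¹ := by rw [h1]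
      _ = t * t⁻¹ := by rw [mim]
  · rw [mul_inv_rev', inv_inv']
    calc a * t⁻¹ * (t * a⁻¹) = a * (t⁻¹ * t) * a⁻¹ := by simp only [mul_assoc]
      _ = a * (a⁻¹ * a) * a⁻¹ := by rw [h1]
      _ = s⁻¹ * s := by rw [mim, h2]

open Classical in
/-- the elements of the relevant `D`-classes -/
noncomputable def DS (c : M → ℝ) : Finset M := univ.filter fun t => t⁻¹ * t ∈ ES c

lemma mem_DS {c : M → ℝ} {t : M} : t ∈ DS c ↔ t⁻¹ * t ∈ ES c := by
  simp [DS]

lemma card_DS_le (hT : TrivialSubgroups M) (c : M → ℝ) : (DS c).card ≤ (ES c).card ^ 2 := by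
  classical
  have h1 : (DS c).card ≤ (ES c ×ˢ ES c).card := by
    refine Finset.card_le_card_of_injOn (fun t => (t⁻¹ * t, t * t⁻¹)) ?_ ?_
    · intro t ht
      have ht' := mem_DS.mp (mem_coe.mp ht)
      exact mem_coe.mpr (mem_product.mpr ⟨ht', ran_mem_ES ht'⟩)
    · intro t _ t' _ h
      rw [Prod.mk.injEq] at h
      exact eq_of_dom_ran hT h.1 h.2
  rwa [card_product, ← sq] at h1

open Classical in
/-- **The rank is at least the number of the relevant idempotents.** -/
theorem card_ES_le (f : M → Bool) (c : M → ℝ)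
    (hc : ∀ z, (if f z then (1 : ℝ) else 0) = ∑ s : M, if le s z then c s else 0) :
    (ES c).card ≤ rk ℝ (fun x y : M => f (x * y)) := by
  set F : M → M → Bool := fun x y => f (x * y) with hF
  have h1 : rk ℝ F = Module.finrank ℝ (Submodule.span ℝ (Set.range (col ℝ F))) := by
    unfold rk
    rw [Matrix.rank_eq_finrank_span_cols]
    rfl
  rw [h1]
  have hch : ∀ e : ES c, ∃ s a : M, c s ≠ 0 ∧ a⁻¹ * a = (e : M) ∧ a * a⁻¹ = s⁻¹ * s :=
    fun e => mem_ES.mp e.2
  choose s a hs ha1 ha2 using hch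
  have hcol : ∀ (y x : M), col ℝ F y x =
      ∑ t : M, if le t x then (if le (t⁻¹ * t) (y * y⁻¹) then c (t * y) else 0) else 0 := by
    intro y x
    unfold col
    rw [hF, hc, sum_le_mul]
  have hli : LinearIndependent ℝ fun e : ES c => col ℝ F (a e)⁻¹ := by
    rw [Fintype.linearIndependent_iff]
    intro g hg
    set G : M → ℝ := fun t => ∑ e : ES c, g e *
      (if le (t⁻¹ * t) (e : M) then c (t * (a e)⁻¹) else 0) with hG
    have h2 : G = 0 := by
      apply zeta_inj
      intro x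
      have h3 := congrFun hg x
      rw [Finset.sum_apply] at h3
      simp only [Pi.smul_apply, smul_eq_mul, Pi.zero_apply] at h3
      refine Eq.trans ?_ h3
      have h4 : ∀ t : M, (if le t x then G t else 0) = ∑ e : ES c, g e *
          (if le t x then (if le (t⁻¹ * t) (e : M) then c (t * (a e)⁻¹) else 0) else 0) := by
        intro t
        split_ifs with h
        · rfl
        · simp
      rw [Finset.sum_congr rfl fun t _ => h4 t, Finset.sum_comm]
      refine Finset.sum_congr rfl fun e _ => ?_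
      rw [← Finset.mul_sum, hcol]
      congr 1
      refine Finset.sum_congr rfl fun t _ => ?_
      rw [inv_inv', ha1]
    by_contra hcon
    push Not at hcon
    let _ := natOrder M
    obtain ⟨e₀, he₀⟩ := hcon
    obtain ⟨e₁, he₁, hmax⟩ := (univ.filter fun e : ES c => g e ≠ 0).exists_maximal
      ⟨e₀, mem_filter.mpr ⟨mem_univ _, he₀⟩⟩
    have he₁' := (mem_filter.mp he₁).2
    have h5 := congrFun h2 (s e₁ * a e₁)
    have hdom : (s e₁ * a e₁)⁻¹ * (s e₁ * a e₁) = (e₁ : M) := by
      rw [mul_inv_rev']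
      calc (a e₁)⁻¹ * (s e₁)⁻¹ * (s e₁ * a e₁) = (a e₁)⁻¹ * ((s e₁)⁻¹ * s e₁) * a e₁ := by
            simp only [mul_assoc]
        _ = (a e₁)⁻¹ * (a e₁ * (a e₁)⁻¹) * a e₁ := by rw [ha2]
        _ = (a e₁)⁻¹ * a e₁ := by rw [imi]
        _ = (e₁ : M) := ha1 e₁
    have hval : s e₁ * a e₁ * (a e₁)⁻¹ = s e₁ := by
      rw [mul_assoc, ha2, mim]
    simp only [hG, Pi.zero_apply, hdom] at h5
    rw [Finset.sum_eq_single e₁] at h5
    · rw [if_pos (le_refl' _), hval] at h5
      exact (mul_ne_zero he₁' (hs e₁)) h5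
    · intro e _ hne
      by_cases hge : g e = 0
      · rw [hge, zero_mul]
      · rw [if_neg, mul_zero]
        intro hle
        apply hne
        have h6 : e₁ ≤ e := hle
        have h7 := hmax (mem_filter.mpr ⟨mem_univ _, hge⟩) h6
        exact le_antisymm h7 h6
    · intro h
      exact absurd (mem_univ _) h
  set u : ES c → Submodule.span ℝ (Set.range (col ℝ F)) := fun e =>
    ⟨col ℝ F (a e)⁻¹, Submodule.subset_span ⟨_, rfl⟩⟩ with hu
  have hli' : LinearIndependent ℝ u := by
    apply LinearIndependent.of_comp (Submodule.subtype _)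
    exact hli
  have h4 := hli'.fintype_card_le_finrank
  rwa [Fintype.card_coe] at h4

/-- **Protocols for functions of a product.** -/
theorem mul_prot (hT : TrivialSubgroups M) (f : M → Bool) :
    Prot (fun x y : M => f (x * y))
      (1620 * (Nat.clog 2 ((rk ℝ (fun x y : M => f (x * y))) ^ 2 + 3)) ^ 6 + 1)
      Set.univ Set.univ := by
  classical
  obtain ⟨c, hc⟩ := exists_moeb (fun z : M => if f z then (1 : ℝ) else 0)
  have h1 := card_ES_le f c hc
  have h2 := card_DS_le hT c
  set n := (DS c).card with hn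
  set ε : DS c ≃ Fin n := (DS c).equivFin with hε
  have h3 : n ≤ (rk ℝ (fun x y : M => f (x * y))) ^ 2 :=
    h2.trans (Nat.pow_le_pow_left h1 2)
  have h4 := feat_prot (n := n) (fun (x : M) i => decide (le (ε.symm i : M) x)) ?_
    (fun x y : M => f (x * y)) ?_
  · exact h4.le (Nat.add_le_add_right (Nat.mul_le_mul_left _ (Nat.pow_le_pow_left
      (Nat.clog_mono_right 2 (by omega)) 6)) 1)
  · intro x x'
    obtain ⟨w, hw⟩ := exists_meet hT x x'
    refine ⟨w, fun i => ?_⟩
    have h5 := hw (ε.symm i : M)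
    by_cases h6 : le (ε.symm i : M) x <;> by_cases h7 : le (ε.symm i : M) x' <;>
      simp [h5, h6, h7]
  · intro y
    refine ⟨0, fun i => if le (((ε.symm i : M))⁻¹ * (ε.symm i : M)) (y * y⁻¹) then
      c ((ε.symm i : M) * y) else 0, fun x => ?_⟩
    rw [hc, sum_le_mul, zero_add]
    have h5 : ∑ i : Fin n, (if decide (le (ε.symm i : M) x) = true then
        (if le (((ε.symm i : M))⁻¹ * (ε.symm i : M)) (y * y⁻¹) then
          c ((ε.symm i : M) * y) else 0) else 0) =
        ∑ t : DS c, (if le (t : M) x then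
        (if le (((t : M))⁻¹ * (t : M)) (y * y⁻¹) then c ((t : M) * y) else 0) else 0) := by
      rw [← ε.symm.sum_comp]
      refine Finset.sum_congr rfl fun i _ => ?_
      simp only [decide_eq_true_eq]
    rw [h5]
    rw [Finset.sum_coe_sort (DS c) (fun t => if le t x then
        (if le (t⁻¹ * t) (y * y⁻¹) then c (t * y) else 0) else 0)]
    symm
    apply Finset.sum_subset (subset_univ _)
    intro t _ ht
    by_contra h6
    apply ht
    by_cases h7 : le t x
    · rw [if_pos h7] at h6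
      by_cases h8 : le (t⁻¹ * t) (y * y⁻¹)
      · rw [if_pos h8] at h6
        rw [mem_DS, mem_ES]
        refine ⟨t * y, y⁻¹ * (t⁻¹ * t), h6, ?_, ?_⟩
        · rw [mul_inv_rev', inv_inv', (idm_inv_mul t).inv]
          have h9 := idm_le_mul (idm_inv_mul t) (idm_mul_inv y) h8
          calc t⁻¹ * t * y * (y⁻¹ * (t⁻¹ * t)) = (t⁻¹ * t) * (y * y⁻¹) * (t⁻¹ * t) := by
                simp only [mul_assoc]
            _ = t⁻¹ * t := by
                rw [h9]
                exact idm_inv_mul t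
        · rw [mul_inv_rev', inv_inv', (idm_inv_mul t).inv, mul_inv_rev']
          have h10 : (t⁻¹ * t) * (t⁻¹ * t) = t⁻¹ * t := idm_inv_mul t
          calc y⁻¹ * (t⁻¹ * t) * (t⁻¹ * t * y) = y⁻¹ * ((t⁻¹ * t) * (t⁻¹ * t)) * y := by
                simp only [mul_assoc]
            _ = y⁻¹ * (t⁻¹ * t) * y := by rw [h10]
            _ = y⁻¹ * t⁻¹ * (t * y) := by simp only [mul_assoc]
      · rw [if_neg h8] at h6
        exact absurd rfl h6
    · rw [if_neg h7] at h6
      exact absurd rfl h6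

end general

end Pool.Agent.Q174.IS
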